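import Pool.Agent.Lib.MP_61e577_lc.Ar.Fin
import Pool.Agent.Lib.MP_61e577_lc.Ar.OrdQ
import Pool.Agent.Lib.MP_61e577_lc.Ar.OrdB
import Pool.Agent.Lib.MP_61e577_lc.Ar.Adq

/-! The provability logic of HA* is iH*. -/

namespace Pool.Agent.Results.MP_61e577_lc.ProvabilityLogic

open HAr

theorem result :
    -- the provability logic of HA* is iH*
    (∀ A : HAs.Form, HAs.IH A ↔ ∀ σ : ℕ → Fm Empty, HAst (itp σ A)) ∧
    -- the calculus proves exactly the theorems of ordinary Heyting arithmetic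
    (∀ a : HAo.A, HAo.Pf [] a ↔ Prv a.tl) ∧
    -- its sentences are those of ordinary arithmetic, up to provable equivalence
    (∀ P : Fm Empty, ∃ a : HAo.A, a.bd 0 ∧ Prv (Fm.imp a.tl (Fm.sub P Fn.zero)) ∧
      Prv (Fm.imp (Fm.sub P Fn.zero) a.tl)) ∧
    (∀ a : HAo.A, a.bd 0 → Prv (Fm.imp a.tl (Fm.sub a.tl Fn.zero)) ∧
      Prv (Fm.imp (Fm.sub a.tl Fn.zero) a.tl)) ∧
    -- the box is provability at numerals, and satisfies the derivability conditions
    (∀ (P : Fm Empty) (x : ℕ), Prv (Fm.sub (bxT (cst (encM P))) (cst x) : Fm Empty) ↔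
      Prv (Fm.sub P (cst x))) ∧
    (∀ P Q : Fm Empty, Prv (Fm.imp (bxT (cst (encM (Fm.imp P Q))))
      (Fm.imp (bxT (cst (encM P))) (bxT (cst (encM Q)))) : Fm Empty)) ∧
    (∀ P : Fm Empty, Prv (Fm.imp (bxT (cst (encM P)))
      (bxT (cst (encM (bxT (cst (encM P)) : Fm Empty)))) : Fm Empty)) ∧
    -- the provability predicate of HA* holds provably exactly for the theorems of HA*
    (∀ P : Fm Empty, Prv (Fm.sub prS (cst (encM P))) ↔ HAst P) :=
  ⟨plHAst, HAo.adeq, HAo.back_all, HAo.tl_closed, box_num, box_dK, box_d4, prS_iff⟩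

end Pool.Agent.Results.MP_61e577_lc.ProvabilityLogic
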