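import Pool.Agent.Lib.MP_61e577_lc.Alg

/-! The logic iH* is the substitution core of the Sigma_1 provability logic of HA*. -/

namespace Pool.Agent.Results.MP_61e577_lc.SubstitutionCore

open HAs

theorem result :
    (∀ A : Form, List.TFAE [IH A,
      ∀ s : ℕ → Form, IHS (sb s A),
      ∀ s : ℕ → Form, (∀ n, bf (s n)) → IHS (sb s A),
      ∀ s : ℕ → Form, (∀ n, bf (s n)) → ∀ M : Mdl, M.Closed → ∀ u : M.W, M.frc (sb s A) u,
      ∀ K ⊆ allSpots (sub A), IsSys (sub A) K → ∀ k ∈ K, A ∈ k.t]) ∧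
    ∀ (H : Type) [HeytingAlgebra H] (b : H → H) (S : Set H),
      (∀ B : Form, (∀ v : ℕ → H, (∀ n, v n ∈ S) → ev b v B = ⊤) → IHS B) →
      ∀ A : Form, (∀ v : ℕ → H, ev b v A = ⊤) → IH A :=
  ⟨HAs.main, fun _ _ b S h A hA => full_of_sigma b S h A hA⟩

end Pool.Agent.Results.MP_61e577_lc.SubstitutionCore
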